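import Pool.Agent.W313.HB.Stm4

set_option autoImplicit false

/-!
# Pairs of squarefree integers in residue classes
-/

namespace Pool.Agent.W303.HB

open Finset

/-- congruent numbers -/
theorem card_le_of_cong (S : Finset ℕ) (H q : ℕ) (hS : ∀ m ∈ S, m ≤ H)
    (hc : ∀ m ∈ S, ∀ n ∈ S, m ≡ n [MOD q]) : S.card ≤ H / q + 1 := by
  have h1 : S.card ≤ (range (H / q + 1)).card := by
    refine Finset.card_le_card_of_injOn (fun m => m / q) ?_ ?_
    · intro m hm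
      have h2 : m / q ≤ H / q := Nat.div_le_div_right (hS m hm)
      have h3 : m / q < H / q + 1 := by omega
      simpa using h3
    · intro m hm n hn hmn
      have h2 : m / q = n / q := hmn
      have h3 : m % q = n % q := hc m hm n hn
      rw [← Nat.div_add_mod m q, ← Nat.div_add_mod n q, h2, h3]
  rwa [Finset.card_range] at h1

/-- a residue class in `[1, H]` -/
def cls (H M r : ℕ) : Finset ℕ := (Ioc 0 H).filter (fun m => m ≡ r [MOD M])

theorem mem_cls {H M r m : ℕ} : m ∈ cls H M r ↔ (0 < m ∧ m ≤ H) ∧ m ≡ r [MOD M] := by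
  rw [cls, mem_filter, mem_Ioc]

theorem cls_card_ge (H M r : ℕ) (hM : 0 < M) : (H : ℝ) / M - 1 ≤ ((cls H M r).card : ℝ) := by
  obtain ⟨r', h1, h2, h3⟩ : ∃ r', 0 < r' ∧ r' ≤ M ∧ r' ≡ r [MOD M] := by
    by_cases h : r % M = 0
    · exact ⟨M, hM, le_rfl, by rw [Nat.ModEq, Nat.mod_self, h]⟩
    · exact ⟨r % M, Nat.pos_of_ne_zero h, (Nat.mod_lt _ hM).le, Nat.mod_modEq _ _⟩
  have h4 : (range (H / M)).card ≤ (cls H M r).card := by
    refine Finset.card_le_card_of_injOn (fun j => j * M + r') ?_ ?_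
    · intro j hj
      have hj' : j < H / M := by simpa using hj
      have h5 : (j + 1) * M ≤ H := (Nat.mul_le_mul_right M hj').trans (Nat.div_mul_le_self H M)
      have h6 : (j + 1) * M = j * M + M := by ring
      have h7 : j * M + r' ∈ cls H M r := by
        rw [mem_cls]
        refine ⟨⟨by omega, by omega⟩, ?_⟩
        have h8 : j * M + r' ≡ 0 + r [MOD M] :=
          Nat.ModEq.add ((Nat.modEq_zero_iff_dvd).2 (dvd_mul_left M j)) h3
        rwa [zero_add] at h8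
      exact h7
    · intro i _ j _ hij
      have h5 : i * M + r' = j * M + r' := hij
      exact Nat.eq_of_mul_eq_mul_right hM (Nat.add_right_cancel h5)
  rw [Finset.card_range] at h4
  have h5 : (H : ℝ) / M < ((H / M : ℕ) : ℝ) + 1 := by
    rw [div_lt_iff₀ (by exact_mod_cast hM)]
    have h6 : H < (H / M + 1) * M := by
      have := Nat.lt_div_mul_add (a := H) hM
      linarith [this, Nat.add_mul (H / M) 1 M]
    exact_mod_cast h6
  have h6 : ((H / M : ℕ) : ℝ) ≤ ((cls H M r).card : ℝ) := by exact_mod_cast h4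
  linarith

theorem prime_dvd_primorial {p z : ℕ} (hp : p.Prime) : p ∣ primorial z ↔ p ≤ z := by
  unfold primorial
  constructor
  · intro h
    rw [Prime.dvd_finset_prod_iff hp.prime] at h
    obtain ⟨q, hq, hpq⟩ := h
    rw [mem_filter, mem_range] at hq
    rw [(Nat.prime_dvd_prime_iff_eq hp hq.2).1 hpq]
    omega
  · intro h
    refine Finset.dvd_prod_of_mem _ ?_
    rw [mem_filter, mem_range]
    exact ⟨by omega, hp⟩

theorem coprime_of_lt {p z : ℕ} (hp : p.Prime) (h : z < p) (K : ℕ) (e : ℕ) :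
    Nat.Coprime (primorial z ^ K) (p ^ e) := by
  refine Nat.Coprime.pow _ _ ?_
  rw [Nat.coprime_comm, Nat.Prime.coprime_iff_not_dvd hp, prime_dvd_primorial hp]
  omega

/-- multiples of `p ^ e` in a residue class -/
theorem cls_dvd_card (H r z K p e : ℕ) (hp : p.Prime) (h : z < p) :
    (((cls H (primorial z ^ K) r).filter (fun m => p ^ e ∣ m)).card : ℝ) ≤
      (H : ℝ) / ((primorial z ^ K : ℕ) : ℝ) * ((p : ℝ) ^ e)⁻¹ + 1 := by
  have h1 := card_le_of_cong ((cls H (primorial z ^ K) r).filter (fun m => p ^ e ∣ m)) H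
    (primorial z ^ K * p ^ e) (by
      intro m hm
      rw [mem_filter, mem_cls] at hm
      exact hm.1.1.2) (by
      intro m hm n hn
      rw [mem_filter, mem_cls] at hm hn
      rw [← Nat.modEq_and_modEq_iff_modEq_mul (coprime_of_lt hp h K e)]
      exact ⟨hm.1.2.trans hn.1.2.symm,
        ((Nat.modEq_zero_iff_dvd).2 hm.2).trans ((Nat.modEq_zero_iff_dvd).2 hn.2).symm⟩)
  have h2 : ((H / (primorial z ^ K * p ^ e) : ℕ) : ℝ) ≤
      (H : ℝ) / ((primorial z ^ K * p ^ e : ℕ) : ℝ) := Nat.cast_div_le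
  have h3 : (H : ℝ) / ((primorial z ^ K * p ^ e : ℕ) : ℝ) =
      (H : ℝ) / ((primorial z ^ K : ℕ) : ℝ) * ((p : ℝ) ^ e)⁻¹ := by
    push_cast
    rw [div_mul_eq_div_div, div_eq_mul_inv _ ((p : ℝ) ^ e)]
  have h4 : (((cls H (primorial z ^ K) r).filter (fun m => p ^ e ∣ m)).card : ℝ) ≤
      ((H / (primorial z ^ K * p ^ e) : ℕ) : ℝ) + 1 := by exact_mod_cast h1
  linarith

/-- sums of inverse squares -/
theorem sum_inv_sq (z N : ℕ) (hz : 100 ≤ z) :
    ∑ p ∈ (Ioc z N).filter Nat.Prime, ((p : ℝ) ^ 2)⁻¹ ≤ 1 / 100 := by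
  have h1 : ∑ p ∈ (Ioc z N).filter Nat.Prime, ((p : ℝ) ^ 2)⁻¹ ≤ ∑ p ∈ Ioc z N, ((p : ℝ) ^ 2)⁻¹ :=
    Finset.sum_le_sum_of_subset_of_nonneg (Finset.filter_subset _ _) fun _ _ _ => by positivity
  refine h1.trans ?_
  rcases le_or_gt z N with h | h
  · have h2 := sum_Ioc_inv_sq_le_sub (α := ℝ) (k := z) (n := N) (by omega) h
    refine h2.trans ?_
    have h3 : (0 : ℝ) ≤ (N : ℝ)⁻¹ := by positivity
    have h4 : (z : ℝ)⁻¹ ≤ 1 / 100 := by
      rw [one_div]
      exact inv_anti₀ (by norm_num) (by exact_mod_cast hz)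
    linarith
  · rw [Finset.Ioc_eq_empty (by omega), Finset.sum_empty]
    norm_num

open Classical in
/-- numbers which are not squarefree -/
theorem nsq_card (H r z K : ℕ) (hz : 100 ≤ z) (hK : 2 ≤ K) (hr : Squarefree r) :
    (((cls H (primorial z ^ K) r).filter (fun m => ¬ Squarefree m)).card : ℝ) ≤
      (H : ℝ) / ((primorial z ^ K : ℕ) : ℝ) / 100 + Nat.sqrt H := by
  have hsub : (cls H (primorial z ^ K) r).filter (fun m => ¬ Squarefree m) ⊆
      ((Ioc z (Nat.sqrt H)).filter Nat.Prime).biUnion fun p =>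
        (cls H (primorial z ^ K) r).filter (fun m => p ^ 2 ∣ m) := by
    intro m hm
    rw [mem_filter] at hm
    obtain ⟨hm1, hm2⟩ := hm
    rw [Nat.squarefree_iff_prime_squarefree] at hm2
    push Not at hm2
    obtain ⟨p, hp, hpm⟩ := hm2
    rw [← sq] at hpm
    have hm3 := mem_cls.1 hm1
    have hzp : z < p := by
      by_contra hlt
      push Not at hlt
      have h1 : p ^ 2 ∣ primorial z ^ K :=
        (pow_dvd_pow_of_dvd ((prime_dvd_primorial hp).2 hlt) 2).trans (pow_dvd_pow _ hK)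
      have h2 : m ≡ r [MOD p ^ 2] := hm3.2.of_dvd h1
      have h3 : p ^ 2 ∣ r := (h2.dvd_iff dvd_rfl).1 hpm
      have h4 := (Nat.squarefree_iff_prime_squarefree.1 hr) p hp
      rw [← sq] at h4
      exact h4 h3
    rw [mem_biUnion]
    refine ⟨p, ?_, mem_filter.2 ⟨hm1, hpm⟩⟩
    rw [mem_filter, mem_Ioc]
    refine ⟨⟨hzp, ?_⟩, hp⟩
    rw [Nat.le_sqrt']
    exact (Nat.le_of_dvd hm3.1.1 hpm).trans hm3.1.2
  have h1 : (((cls H (primorial z ^ K) r).filter (fun m => ¬ Squarefree m)).card : ℝ) ≤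
      ∑ p ∈ (Ioc z (Nat.sqrt H)).filter Nat.Prime,
        (((cls H (primorial z ^ K) r).filter (fun m => p ^ 2 ∣ m)).card : ℝ) := by
    exact_mod_cast (Finset.card_le_card hsub).trans Finset.card_biUnion_le
  refine h1.trans ?_
  have h2 : ∑ p ∈ (Ioc z (Nat.sqrt H)).filter Nat.Prime,
        (((cls H (primorial z ^ K) r).filter (fun m => p ^ 2 ∣ m)).card : ℝ) ≤
      ∑ p ∈ (Ioc z (Nat.sqrt H)).filter Nat.Prime,
        ((H : ℝ) / ((primorial z ^ K : ℕ) : ℝ) * ((p : ℝ) ^ 2)⁻¹ + 1) := by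
    refine Finset.sum_le_sum fun p hp => ?_
    rw [mem_filter, mem_Ioc] at hp
    exact cls_dvd_card H r z K p 2 hp.2 hp.1.1
  refine h2.trans ?_
  rw [Finset.sum_add_distrib, ← Finset.mul_sum, Finset.sum_const, nsmul_eq_mul, mul_one]
  have h3 := sum_inv_sq z (Nat.sqrt H) hz
  have h4 : (0 : ℝ) ≤ (H : ℝ) / ((primorial z ^ K : ℕ) : ℝ) := by positivity
  have h5 := mul_le_mul_of_nonneg_left h3 h4
  have h6 : ((Ioc z (Nat.sqrt H)).filter Nat.Prime).card ≤ Nat.sqrt H := by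
    refine (Finset.card_filter_le _ _).trans ?_
    rw [Nat.card_Ioc]
    omega
  have h7 : (((Ioc z (Nat.sqrt H)).filter Nat.Prime).card : ℝ) ≤ (Nat.sqrt H : ℝ) := by
    exact_mod_cast h6
  linarith

open Classical in
/-- pairs with a common prime factor -/
theorem com_card (H r s z K : ℕ) (hz : 100 ≤ z) :
    ((((cls H (primorial z ^ K) r) ×ˢ (cls H (primorial z ^ K) s)).filter
      (fun x : ℕ × ℕ => ∃ p : ℕ, p.Prime ∧ z < p ∧ p ∣ x.1 ∧ p ∣ x.2)).card : ℝ) ≤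
      2 * ((H : ℝ) / ((primorial z ^ K : ℕ) : ℝ)) ^ 2 / 100 + 2 * H := by
  have hsub : ((cls H (primorial z ^ K) r) ×ˢ (cls H (primorial z ^ K) s)).filter
      (fun x : ℕ × ℕ => ∃ p : ℕ, p.Prime ∧ z < p ∧ p ∣ x.1 ∧ p ∣ x.2) ⊆
      ((Ioc z H).filter Nat.Prime).biUnion fun p =>
        ((cls H (primorial z ^ K) r).filter (fun m => p ^ 1 ∣ m)) ×ˢ
          ((cls H (primorial z ^ K) s).filter (fun m => p ^ 1 ∣ m)) := by
    rintro ⟨m, n⟩ hx
    rw [mem_filter, mem_product] at hx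
    obtain ⟨⟨hm, hn⟩, p, hp, hzp, hpm, hpn⟩ := hx
    rw [mem_biUnion]
    refine ⟨p, ?_, ?_⟩
    · rw [mem_filter, mem_Ioc]
      have h1 := mem_cls.1 hm
      exact ⟨⟨hzp, (Nat.le_of_dvd h1.1.1 hpm).trans h1.1.2⟩, hp⟩
    · rw [mem_product, mem_filter, mem_filter, pow_one]
      exact ⟨⟨hm, hpm⟩, ⟨hn, hpn⟩⟩
  have h1 : ((((cls H (primorial z ^ K) r) ×ˢ (cls H (primorial z ^ K) s)).filter
      (fun x : ℕ × ℕ => ∃ p : ℕ, p.Prime ∧ z < p ∧ p ∣ x.1 ∧ p ∣ x.2)).card : ℝ) ≤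
      ∑ p ∈ (Ioc z H).filter Nat.Prime,
        (((((cls H (primorial z ^ K) r).filter (fun m => p ^ 1 ∣ m)) ×ˢ
          ((cls H (primorial z ^ K) s).filter (fun m => p ^ 1 ∣ m))).card : ℕ) : ℝ) := by
    exact_mod_cast (Finset.card_le_card hsub).trans Finset.card_biUnion_le
  refine h1.trans ?_
  set X : ℝ := (H : ℝ) / ((primorial z ^ K : ℕ) : ℝ) with hX
  have hX0 : 0 ≤ X := by positivity
  have h2 : ∑ p ∈ (Ioc z H).filter Nat.Prime,
        (((((cls H (primorial z ^ K) r).filter (fun m => p ^ 1 ∣ m)) ×ˢ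
          ((cls H (primorial z ^ K) s).filter (fun m => p ^ 1 ∣ m))).card : ℕ) : ℝ) ≤
      ∑ p ∈ (Ioc z H).filter Nat.Prime, (2 * X ^ 2 * ((p : ℝ) ^ 2)⁻¹ + 2) := by
    refine Finset.sum_le_sum fun p hp => ?_
    rw [mem_filter, mem_Ioc] at hp
    have e1 := cls_dvd_card H r z K p 1 hp.2 hp.1.1
    have e2 := cls_dvd_card H s z K p 1 hp.2 hp.1.1
    rw [← hX, pow_one] at e1 e2
    rw [Finset.card_product]
    push_cast
    have e3 : 0 ≤ X * (p : ℝ)⁻¹ := by positivity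
    have e4 : 2 * X ^ 2 * ((p : ℝ) ^ 2)⁻¹ = 2 * (X * (p : ℝ)⁻¹) ^ 2 := by
      rw [mul_pow, inv_pow, mul_assoc]
    rw [e4]
    simp only [pow_one] at e1 e2 ⊢
    calc (((cls H (primorial z ^ K) r).filter (fun m => p ∣ m)).card : ℝ) *
          (((cls H (primorial z ^ K) s).filter (fun m => p ∣ m)).card : ℝ)
        ≤ (X * (p : ℝ)⁻¹ + 1) * (X * (p : ℝ)⁻¹ + 1) :=
          mul_le_mul e1 e2 (Nat.cast_nonneg _) (by linarith)
      _ ≤ 2 * (X * (p : ℝ)⁻¹) ^ 2 + 2 := by nlinarith [sq_nonneg (X * (p : ℝ)⁻¹ - 1)]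
  refine h2.trans ?_
  rw [Finset.sum_add_distrib, ← Finset.mul_sum, Finset.sum_const, nsmul_eq_mul]
  have h3 := sum_inv_sq z H hz
  have h4 : (0 : ℝ) ≤ 2 * X ^ 2 := by positivity
  have h5 := mul_le_mul_of_nonneg_left h3 h4
  have h6 : ((Ioc z H).filter Nat.Prime).card ≤ H := by
    refine (Finset.card_filter_le _ _).trans ?_
    rw [Nat.card_Ioc]
    omega
  have h7 : (((Ioc z H).filter Nat.Prime).card : ℝ) ≤ (H : ℝ) := by exact_mod_cast h6
  linarith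

open Classical in
/-- the statement for natural numbers -/
theorem nat_pairs (z K r s : ℕ) (hz : 100 ≤ z) (hK : 2 ≤ K) (hr : Squarefree r)
    (hs : Squarefree s) (H : ℕ) (hH : 400 * (primorial z ^ K) ^ 2 ≤ H) :
    1 / 2 * ((H : ℝ) / ((primorial z ^ K : ℕ) : ℝ)) ^ 2 ≤
      ((((cls H (primorial z ^ K) r) ×ˢ (cls H (primorial z ^ K) s)).filter
      (fun x : ℕ × ℕ => Squarefree x.1 ∧ Squarefree x.2 ∧
        ∀ p : ℕ, p.Prime → z < p → p ∣ x.1 → ¬ p ∣ x.2)).card : ℝ) := by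
  have hM : 0 < primorial z ^ K := pow_pos (primorial_pos z) K
  set M : ℕ := primorial z ^ K with hMdef
  set X : ℝ := (H : ℝ) / (M : ℝ) with hX
  have hMr : (0 : ℝ) < M := by exact_mod_cast hM
  have hX0 : 0 ≤ X := by positivity
  set A := (cls H M r).filter (fun m => Squarefree m) with hA
  set B := (cls H M s).filter (fun m => Squarefree m) with hB
  set C := ((cls H M r) ×ˢ (cls H M s)).filter
      (fun x : ℕ × ℕ => ∃ p : ℕ, p.Prime ∧ z < p ∧ p ∣ x.1 ∧ p ∣ x.2) with hC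
  set G := ((cls H M r) ×ˢ (cls H M s)).filter
      (fun x : ℕ × ℕ => Squarefree x.1 ∧ Squarefree x.2 ∧
        ∀ p : ℕ, p.Prime → z < p → p ∣ x.1 → ¬ p ∣ x.2) with hG
  have h1 : (A ×ˢ B).card ≤ G.card + C.card := by
    refine (Finset.card_le_card (t := G ∪ C) ?_).trans (Finset.card_union_le _ _)
    rintro ⟨m, n⟩ hx
    rw [mem_product, hA, hB, mem_filter, mem_filter] at hx
    rw [mem_union]
    by_cases h : ∃ p : ℕ, p.Prime ∧ z < p ∧ p ∣ m ∧ p ∣ n
    · right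
      rw [hC, mem_filter, mem_product]
      exact ⟨⟨hx.1.1, hx.2.1⟩, h⟩
    · left
      rw [hG, mem_filter, mem_product]
      refine ⟨⟨hx.1.1, hx.2.1⟩, hx.1.2, hx.2.2, fun p hp hzp hpm hpn => h ⟨p, hp, hzp, hpm, hpn⟩⟩
  have hCc := com_card H r s z K hz
  rw [← hMdef, ← hX, ← hC] at hCc
  set q := Nat.sqrt H with hq
  have hbound : ∀ t : ℕ, Squarefree t →
      99 / 100 * X - (1 + q) ≤ (((cls H M t).filter (fun m => Squarefree m)).card : ℝ) := by
    intro t ht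
    have e1 := nsq_card H t z K hz hK ht
    rw [← hMdef, ← hX, ← hq] at e1
    have e2 := cls_card_ge H M t hM
    rw [← hX] at e2
    have e3 : (((cls H M t).filter (fun m => Squarefree m)).card : ℝ) +
        (((cls H M t).filter (fun m => ¬ Squarefree m)).card : ℝ) = ((cls H M t).card : ℝ) := by
      exact_mod_cast Finset.card_filter_add_card_filter_not (s := cls H M t)
        (fun m => Squarefree m)
    linarith
  have hAc := hbound r hr
  have hBc := hbound s hs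
  rw [← hA] at hAc
  rw [← hB] at hBc
  -- the square root
  have hq1 : 20 * M ≤ q := by
    rw [hq, Nat.le_sqrt']
    refine le_trans (le_of_eq ?_) hH
    ring
  have hq2 : q ^ 2 ≤ H := Nat.sqrt_le' H
  have hq3 : (1 : ℝ) + q ≤ X / 10 := by
    have e1 : (20 : ℝ) * M ≤ q := by exact_mod_cast hq1
    have e2 : (q : ℝ) ^ 2 ≤ H := by exact_mod_cast hq2
    have e3 : (1 : ℝ) ≤ q := by
      have : (1 : ℝ) ≤ M := by exact_mod_cast hM
      linarith
    have e4 : (q : ℝ) ≤ X / 20 := by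
      rw [hX, div_div, le_div_iff₀ (by positivity)]
      nlinarith
    linarith
  have hX2 : (20 : ℝ) * H ≤ X ^ 2 := by
    have e1 : (400 : ℝ) * (M : ℝ) ^ 2 ≤ H := by exact_mod_cast hH
    have e2 : (0 : ℝ) ≤ H := Nat.cast_nonneg _
    rw [hX, div_pow, le_div_iff₀ (by positivity)]
    nlinarith
  have h2 : ((A.card : ℝ)) * (B.card : ℝ) ≤ (G.card : ℝ) + (C.card : ℝ) := by
    rw [Finset.card_product] at h1
    exact_mod_cast h1
  have h3 : (89 / 100 * X) * (89 / 100 * X) ≤ (A.card : ℝ) * (B.card : ℝ) :=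
    mul_le_mul (by linarith) (by linarith) (by linarith) (Nat.cast_nonneg _)
  nlinarith

/-- signs -/
theorem exists_sign (a : ℤ) : ∃ ε : ℤ, (ε = 1 ∨ ε = -1) ∧ a = ε * a.natAbs := by
  rcases Int.natAbs_eq a with h | h
  · exact ⟨1, Or.inl rfl, by rw [one_mul]; exact h⟩
  · exact ⟨-1, Or.inr rfl, by rw [neg_one_mul]; exact h⟩

theorem natAbs_sign_mul {ε : ℤ} (hε : ε = 1 ∨ ε = -1) (m : ℕ) : (ε * (m : ℤ)).natAbs = m := by
  rcases hε with rfl | rfl <;> simp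

theorem sign_mem {ε : ℤ} (hε : ε = 1 ∨ ε = -1) {a : ℤ} (ha : a = ε * a.natAbs) (ha0 : a ≠ 0)
    {H M m : ℕ} (hm : m ∈ cls H M a.natAbs) :
    ε * (m : ℤ) ∈ Icc (-(H : ℤ)) H ∧ 0 < ε * (m : ℤ) * a ∧ (M : ℤ) ∣ ε * (m : ℤ) - a := by
  rw [mem_cls] at hm
  obtain ⟨⟨h1, h2⟩, h3⟩ := hm
  have h4 : 0 < a.natAbs := Int.natAbs_pos.2 ha0
  refine ⟨?_, ?_, ?_⟩
  · rw [mem_Icc]
    rcases hε with rfl | rfl <;> constructor <;> push_cast <;> omega
  · have h5 : ε * (m : ℤ) * a = (m : ℤ) * (a.natAbs : ℤ) := by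
      conv_lhs => rw [ha]
      rcases hε with rfl | rfl <;> ring
    rw [h5]
    positivity
  · have h5 : (M : ℤ) ∣ (m : ℤ) - (a.natAbs : ℤ) := (Nat.modEq_iff_dvd.1 h3.symm)
    have h6 : ε * (m : ℤ) - a = ε * ((m : ℤ) - (a.natAbs : ℤ)) := by
      conv_lhs => rw [ha]
      ring
    rw [h6]
    exact h5.mul_left _

theorem dpair_ : Pool.Agent.W313.HB.S_DPAIR := by
  classical
  intro z K a0 b0 hz hK ha hb
  have hM : 0 < primorial z ^ K := pow_pos (primorial_pos z) K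
  have hMr : (0 : ℝ) < ((primorial z ^ K : ℕ) : ℝ) := by exact_mod_cast hM
  refine ⟨1 / 2 / ((primorial z ^ K : ℕ) : ℝ) ^ 2, by positivity, 400 * (primorial z ^ K) ^ 2,
    fun H hH => ?_⟩
  have h1 := nat_pairs z K a0.natAbs b0.natAbs hz hK (Int.squarefree_natAbs.2 ha)
    (Int.squarefree_natAbs.2 hb) H hH
  have h2 : 1 / 2 / ((primorial z ^ K : ℕ) : ℝ) ^ 2 * (H : ℝ) ^ 2 =
      1 / 2 * ((H : ℝ) / ((primorial z ^ K : ℕ) : ℝ)) ^ 2 := by
    rw [div_pow]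
    ring
  rw [h2]
  refine h1.trans ?_
  obtain ⟨ε, hε, hae⟩ := exists_sign a0
  obtain ⟨δ, hδ, hbd⟩ := exists_sign b0
  have h3 := Finset.card_le_card_of_injOn (s := ((cls H (primorial z ^ K) a0.natAbs) ×ˢ
      (cls H (primorial z ^ K) b0.natAbs)).filter
      (fun x : ℕ × ℕ => Squarefree x.1 ∧ Squarefree x.2 ∧
        ∀ p : ℕ, p.Prime → z < p → p ∣ x.1 → ¬ p ∣ x.2))
    (t := ((Icc (-(H : ℤ)) H) ×ˢ (Icc (-(H : ℤ)) H)).filter (fun x : ℤ × ℤ => Squarefree x.1 ∧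
      Squarefree x.2 ∧ 0 < x.1 * a0 ∧ 0 < x.2 * b0 ∧ ((primorial z ^ K : ℕ) : ℤ) ∣ x.1 - a0 ∧
      ((primorial z ^ K : ℕ) : ℤ) ∣ x.2 - b0 ∧
      ∀ p : ℕ, p.Prime → z < p → (p : ℤ) ∣ x.1 → ¬ (p : ℤ) ∣ x.2))
    (fun x => (ε * (x.1 : ℤ), δ * (x.2 : ℤ))) (by
      rintro ⟨m, n⟩ hx
      rw [Finset.mem_coe, mem_filter, mem_product] at hx
      obtain ⟨⟨hm, hn⟩, hm2, hn2, hp⟩ := hx
      obtain ⟨e1, e2, e3⟩ := sign_mem hε hae ha.ne_zero hm
      obtain ⟨f1, f2, f3⟩ := sign_mem hδ hbd hb.ne_zero hn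
      rw [Finset.mem_coe, mem_filter, mem_product]
      refine ⟨⟨e1, f1⟩, ?_, ?_, e2, f2, e3, f3, ?_⟩
      · rw [← Int.squarefree_natAbs, natAbs_sign_mul hε]
        exact hm2
      · rw [← Int.squarefree_natAbs, natAbs_sign_mul hδ]
        exact hn2
      · intro p hpp hzp hpm hpn
        rw [Int.natCast_dvd, natAbs_sign_mul hε] at hpm
        rw [Int.natCast_dvd, natAbs_sign_mul hδ] at hpn
        exact hp p hpp hzp hpm hpn) (by
      rintro ⟨m, n⟩ _ ⟨m', n'⟩ _ hxy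
      rw [Prod.mk.injEq] at hxy
      have e1 := congrArg Int.natAbs hxy.1
      have e2 := congrArg Int.natAbs hxy.2
      rw [natAbs_sign_mul hε, natAbs_sign_mul hε] at e1
      rw [natAbs_sign_mul hδ, natAbs_sign_mul hδ] at e2
      exact Prod.ext e1 e2)
  exact_mod_cast h3

end Pool.Agent.W303.HB
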